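import Mathlib

/-!
# Symmetric products do not preserve the fixed point property

The space `E` is the fan in the plane consisting of the segments from the origin to the points
`(1, k)`, `k = 0, 1, 2, ...`, with the topology of the plane. It has the fixed point property: if
`f` moves the origin to a point of the `m`-th segment, then the composition of `f`, restricted to
that segment, with the retraction of `E` onto the segment has a fixed point, which is not the
origin, and so it is a fixed point of `f`.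

For `n ≥ 2` let `y s` be the greatest second coordinate of a point of `s` in the symmetric product
`E(n)`. There is a path `r : [0, ∞) → E(n)`, consisting of sets with at most two points, with
`y (r t) > t - 1`: one of the points waits at `(1, k)` while the other point moves from `(1, k)`
through the origin to `(1, k + 1)`. The map `s ↦ r (y s + 1)` of `E(n)` has no fixed point.
-/

set_option autoImplicit false

open Set Topology Filter

universe u

namespace Pool.Agent.Results.MP_3eb21e_gt.PlaneFan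

/-- Every continuous self-map of the space has a fixed point. -/
def FixedPointProperty (X : Type u) [TopologicalSpace X] : Prop :=
  ∀ f : X → X, Continuous f → ∃ x, f x = x

/-- The set of the `n`-th symmetric product: all `{x 1, ..., x n}`, the points not necessarily
distinct. -/
def SymProd (E : Type u) (n : ℕ) : Type u := {s : Set E // ∃ x : Fin n → E, range x = s}

/-- The topology of the `n`-th symmetric product: for open sets `u 1, ..., u n` the set of all `s`
which are contained in the union of the sets `u i` and meet every `u i` is open, and these sets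
form a base. -/
instance (E : Type u) [TopologicalSpace E] (n : ℕ) : TopologicalSpace (SymProd E n) :=
  TopologicalSpace.generateFrom {W | ∃ v : Fin n → Set E, (∀ i, IsOpen (v i)) ∧
    W = {s | s.1 ⊆ ⋃ i, v i ∧ ∀ i, (s.1 ∩ v i).Nonempty}}

/-- The fan: the union over `k = 0, 1, 2, ...` of the segments from the origin to the points
`(1, k)` of the plane. -/
def Fan : Set (ℝ × ℝ) := {p | 0 ≤ p.1 ∧ p.1 ≤ 1 ∧ ∃ k : ℕ, p.2 = k * p.1}

/-! ### The fan has the fixed point property -/

/-- the `m`-th leg -/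
noncomputable def leg (m : ℕ) (t : ℝ) : Fan :=
  ⟨(max 0 (min t 1), m * max 0 (min t 1)), le_max_left _ _,
    max_le zero_le_one (min_le_right _ _), m, rfl⟩

theorem leg_cont (m : ℕ) : Continuous (leg m) := by
  unfold leg
  fun_prop

theorem leg_of_mem {m : ℕ} {t : ℝ} (ht : t ∈ Icc (0:ℝ) 1) : (leg m t : ℝ × ℝ) = (t, m * t) := by
  simp [leg, ht.1, ht.2]

/-- the retraction onto the `m`-th leg -/
def ret (m : ℕ) (p : Fan) : ℝ := max 0 (p.1.1 - |p.1.2 - m * p.1.1|)

theorem ret_cont (m : ℕ) : Continuous (ret m) := by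
  unfold ret
  fun_prop

theorem ret_mem (m : ℕ) (p : Fan) : ret m p ∈ Icc (0:ℝ) 1 := by
  refine ⟨le_max_left _ _, max_le zero_le_one ?_⟩
  have := p.2.2.1
  have := abs_nonneg (p.1.2 - m * p.1.1)
  linarith

theorem ret_pos {m : ℕ} {p : Fan} (h : 0 < ret m p) : (p : ℝ × ℝ) = (ret m p, m * ret m p) := by
  obtain ⟨⟨x, y⟩, hx0, hx1, k, hk⟩ := p
  simp only at hx0 hx1 hk
  subst hk
  simp only [ret] at h ⊢
  have h1 : 0 < x - |(k:ℝ) * x - m * x| := by
    rcases lt_max_iff.1 h with h | h
    · exact absurd h (lt_irrefl _)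
    · exact h
  rw [max_eq_right h1.le]
  have h2 : (k:ℝ) * x - m * x = (k - m) * x := by ring
  rw [h2, abs_mul, abs_of_nonneg hx0] at h1 ⊢
  have hx : 0 < x := by
    rcases hx0.lt_or_eq with h | h
    · exact h
    · rw [← h] at h1; simp at h1
  have h3 : |(k:ℝ) - m| < 1 := by
    by_contra hc
    push Not at hc
    nlinarith
  have h4 : (k:ℤ) = m := by
    have h5 : |(k:ℤ) - m| < 1 := by exact_mod_cast h3
    have := Int.abs_lt_one_iff.1 h5
    omega
  have h5 : k = m := by exact_mod_cast h4
  subst h5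
  simp

theorem fan_fpp : FixedPointProperty Fan := by
  intro f hf
  by_cases h0 : f (leg 0 0) = leg 0 0
  · exact ⟨_, h0⟩
  obtain ⟨hx0, hx1, m, hm⟩ := (f (leg 0 0)).2
  have ho : ∀ j : ℕ, leg j 0 = leg 0 0 := by
    intro j
    ext <;> simp [leg]
  obtain ⟨t, ht, hfix⟩ := exists_mem_Icc_isFixedPt_of_mapsTo
    (f := fun t => ret m (f (leg m t)))
    ((ret_cont m).comp (hf.comp (leg_cont m))).continuousOn zero_le_one
    (fun t _ => ret_mem m _)
  have hfix' : ret m (f (leg m t)) = t := hfix
  rcases ht.1.lt_or_eq with h | h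
  · refine ⟨leg m t, ?_⟩
    have h1 := ret_pos (m := m) (p := f (leg m t)) (by rw [hfix']; exact h)
    rw [hfix'] at h1
    exact Subtype.ext (by rw [h1, leg_of_mem ht])
  · exfalso
    rw [← h, ho m] at hfix'
    apply h0
    have h1 : ret m (f (leg 0 0)) = (f (leg 0 0)).1.1 := by
      unfold ret
      rw [hm]
      simp [hx0]
    rw [h1] at hfix'
    apply Subtype.ext
    rw [leg_of_mem ⟨le_rfl, zero_le_one⟩]
    ext
    · exact hfix'
    · show (f (leg 0 0)).1.2 = _
      rw [hm, hfix']
      simp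

/-! ### The path in the fan -/

/-- the first coordinate of the path -/
noncomputable def xx (t : ℝ) : ℝ := min 1 (2 * |Real.sin (Real.pi * t)|)

theorem xx_cont : Continuous xx := by
  unfold xx
  fun_prop

theorem xx_nonneg (t : ℝ) : 0 ≤ xx t := le_min zero_le_one (by positivity)

theorem xx_le (t : ℝ) : xx t ≤ 1 := min_le_left _ _

theorem xx_int (k : ℤ) : xx k = 0 := by
  unfold xx
  rw [mul_comm Real.pi, Real.sin_int_mul_pi]
  simp

theorem yy_cont : Continuous fun t : ℝ => (⌊t⌋₊ : ℝ) * xx t := by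
  rw [continuous_iff_continuousAt]
  intro a
  by_cases ha : xx a = 0
  · have h1 : Tendsto (fun t : ℝ => |t| * xx t) (𝓝 a) (𝓝 0) := by
      have h2 : Continuous fun t : ℝ => |t| * xx t := continuous_abs.mul xx_cont
      have h3 := h2.tendsto a
      simpa [ha] using h3
    have h4 : Tendsto (fun t : ℝ => (⌊t⌋₊ : ℝ) * xx t) (𝓝 a) (𝓝 0) := by
      refine squeeze_zero (fun t => mul_nonneg (Nat.cast_nonneg _) (xx_nonneg t)) (fun t => ?_) h1
      refine mul_le_mul_of_nonneg_right ?_ (xx_nonneg t)
      rcases le_total 0 t with h | h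
      · exact (Nat.floor_le h).trans (le_abs_self t)
      · rw [Nat.floor_of_nonpos h]; simp
    unfold ContinuousAt
    simpa [ha] using h4
  · have hne : a ≠ ⌊a⌋ := by
      intro h
      apply ha
      rw [h]
      exact xx_int _
    have h1 : ∀ᶠ t in 𝓝 a, t ∈ Ioo (⌊a⌋ : ℝ) (⌊a⌋ + 1) :=
      Ioo_mem_nhds (lt_of_le_of_ne (Int.floor_le a) hne.symm) (Int.lt_floor_add_one a)
    have h2 : ∀ᶠ t in 𝓝 a, (⌊t⌋₊ : ℝ) * xx t = (⌊a⌋₊ : ℝ) * xx t := by
      filter_upwards [h1] with t ht
      have h3 : ⌊t⌋ = ⌊a⌋ := Int.floor_eq_iff.2 ⟨ht.1.le, ht.2⟩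
      rw [← Int.floor_toNat, ← Int.floor_toNat, h3]
    refine ContinuousAt.congr ?_ (h2.mono fun t ht => ht.symm)
    exact (continuous_const.mul xx_cont).continuousAt

/-- the path -/
noncomputable def path (t : ℝ) : Fan :=
  ⟨(xx t, ⌊t⌋₊ * xx t), xx_nonneg t, xx_le t, ⌊t⌋₊, rfl⟩

theorem path_cont : Continuous path := by
  refine Continuous.subtype_mk (xx_cont.prodMk yy_cont) _

theorem path_tip (t : ℝ) : xx t = 1 ∨ xx (t + 1/2) = 1 := by
  have h2 : Real.sin (Real.pi * (t + 1/2)) = Real.cos (Real.pi * t) := by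
    rw [mul_add, ← Real.sin_add_pi_div_two]
    congr 1
    ring
  unfold xx
  rw [h2, min_eq_left_iff, min_eq_left_iff]
  by_contra hc
  push Not at hc
  have h3 := Real.sin_sq_add_cos_sq (Real.pi * t)
  have h4 : |Real.sin (Real.pi * t)| ^ 2 < 1/4 := by
    have := abs_nonneg (Real.sin (Real.pi * t))
    nlinarith [hc.1]
  have h5 : |Real.cos (Real.pi * t)| ^ 2 < 1/4 := by
    have := abs_nonneg (Real.cos (Real.pi * t))
    nlinarith [hc.2]
  rw [sq_abs] at h4 h5
  linarith

/-! ### The symmetric products -/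

section Sym

variable {n : ℕ}

theorem sym_finite (s : SymProd Fan n) : s.1.Finite := by
  obtain ⟨x, hx⟩ := s.2
  rw [← hx]
  exact finite_range x

theorem sym_nonempty (hn : 2 ≤ n) (s : SymProd Fan n) : s.1.Nonempty := by
  obtain ⟨x, hx⟩ := s.2
  rw [← hx]
  exact ⟨_, mem_range_self (⟨0, by omega⟩ : Fin n)⟩

/-- the greatest second coordinate -/
noncomputable def height (s : SymProd Fan n) : ℝ := sSup ((fun p : Fan => p.1.2) '' s.1)

theorem height_lt_iff (hn : 2 ≤ n) (s : SymProd Fan n) (c : ℝ) :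
    height s < c ↔ ∀ p ∈ s.1, p.1.2 < c := by
  unfold height
  rw [((sym_finite s).image _).csSup_lt_iff ((sym_nonempty hn s).image _)]
  exact forall_mem_image

theorem lt_height_iff (hn : 2 ≤ n) (s : SymProd Fan n) (c : ℝ) :
    c < height s ↔ ∃ p ∈ s.1, c < p.1.2 := by
  unfold height
  rw [lt_csSup_iff ((sym_finite s).image _).bddAbove ((sym_nonempty hn s).image _)]
  exact exists_mem_image

theorem height_cont (hn : 2 ≤ n) : Continuous (height (n := n)) := by
  have hψ : Continuous fun p : Fan => p.1.2 := by fun_prop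
  rw [OrderTopology.continuous_iff]
  intro c
  constructor
  · refine TopologicalSpace.isOpen_generateFrom_of_mem
      ⟨fun i => if (i : ℕ) = 0 then {p : Fan | c < p.1.2} else univ, fun i => ?_, ?_⟩
    · dsimp only
      split_ifs
      · exact isOpen_lt continuous_const hψ
      · exact isOpen_univ
    · ext s
      simp only [mem_preimage, mem_Ioi, mem_ofPred_eq, lt_height_iff hn]
      constructor
      · rintro ⟨p, hp, hc⟩
        refine ⟨fun q _ => mem_iUnion.2 ⟨⟨1, by omega⟩, by simp⟩, fun i => ?_⟩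
        refine ⟨p, hp, ?_⟩
        split_ifs
        · exact hc
        · trivial
      · rintro ⟨-, h⟩
        obtain ⟨p, hp, hc⟩ := h ⟨0, by omega⟩
        simp only [if_true] at hc
        exact ⟨p, hp, hc⟩
  · refine TopologicalSpace.isOpen_generateFrom_of_mem
      ⟨fun _ => {p : Fan | p.1.2 < c}, fun i => isOpen_lt hψ continuous_const, ?_⟩
    ext s
    simp only [mem_preimage, mem_Iio, mem_ofPred_eq, height_lt_iff hn]
    constructor
    · intro h
      refine ⟨fun q hq => mem_iUnion.2 ⟨⟨0, by omega⟩, h q hq⟩, fun i => ?_⟩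
      obtain ⟨p, hp⟩ := sym_nonempty hn s
      exact ⟨p, hp, h p hp⟩
    · rintro ⟨h, -⟩ p hp
      obtain ⟨i, hi⟩ := mem_iUnion.1 (h hp)
      exact hi

/-- the path in the symmetric product -/
noncomputable def ray (n : ℕ) (t : ℝ) : SymProd Fan n :=
  ⟨_, fun i : Fin n => if (i : ℕ) = 0 then path t else path (t + 1/2), rfl⟩

theorem mem_ray (hn : 2 ≤ n) (t : ℝ) (p : Fan) :
    p ∈ (ray n t).1 ↔ p = path t ∨ p = path (t + 1/2) := by
  unfold ray
  constructor
  · rintro ⟨i, rfl⟩
    dsimp only
    split_ifs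
    · left; rfl
    · right; rfl
  · rintro (rfl | rfl)
    · exact ⟨⟨0, by omega⟩, by simp⟩
    · exact ⟨⟨1, by omega⟩, by simp⟩

theorem ray_cont (hn : 2 ≤ n) : Continuous (ray n) := by
  rw [continuous_generateFrom_iff]
  rintro W ⟨v, hv, rfl⟩
  have h1 : Continuous fun t : ℝ => path (t + 1/2) := path_cont.comp (by fun_prop)
  have e : ray n ⁻¹' {s | s.1 ⊆ ⋃ i, v i ∧ ∀ i, (s.1 ∩ v i).Nonempty} =
      (path ⁻¹' (⋃ i, v i) ∩ (fun t : ℝ => path (t + 1/2)) ⁻¹' (⋃ i, v i)) ∩
      ⋂ i, (path ⁻¹' (v i) ∪ (fun t : ℝ => path (t + 1/2)) ⁻¹' (v i)) := by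
    ext t
    simp only [mem_preimage, mem_ofPred_eq, mem_inter_iff, mem_iInter, mem_union]
    constructor
    · rintro ⟨h2, h3⟩
      refine ⟨⟨h2 ((mem_ray hn t _).2 (Or.inl rfl)), h2 ((mem_ray hn t _).2 (Or.inr rfl))⟩,
        fun i => ?_⟩
      obtain ⟨p, hp, hpi⟩ := h3 i
      rcases (mem_ray hn t _).1 hp with rfl | rfl
      · left; exact hpi
      · right; exact hpi
    · rintro ⟨⟨h2, h3⟩, h4⟩
      refine ⟨fun p hp => ?_, fun i => ?_⟩
      · rcases (mem_ray hn t _).1 hp with rfl | rfl
        · exact h2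
        · exact h3
      · rcases h4 i with h | h
        · exact ⟨_, (mem_ray hn t _).2 (Or.inl rfl), h⟩
        · exact ⟨_, (mem_ray hn t _).2 (Or.inr rfl), h⟩
  rw [e]
  have ho : IsOpen (⋃ i, v i) := isOpen_iUnion hv
  refine ((ho.preimage path_cont).inter (ho.preimage h1)).inter
    (isOpen_iInter_of_finite fun i => ?_)
  exact ((hv i).preimage path_cont).union ((hv i).preimage h1)

theorem height_ray (hn : 2 ≤ n) (t : ℝ) : t - 1 < height (ray n t) := by
  rw [lt_height_iff hn]
  rcases path_tip t with h | h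
  · refine ⟨path t, (mem_ray hn t _).2 (Or.inl rfl), ?_⟩
    show t - 1 < ⌊t⌋₊ * xx t
    rw [h, mul_one]
    have := Nat.lt_floor_add_one t
    linarith
  · refine ⟨path (t + 1/2), (mem_ray hn t _).2 (Or.inr rfl), ?_⟩
    show t - 1 < ⌊t + 1/2⌋₊ * xx (t + 1/2)
    rw [h, mul_one]
    have := Nat.lt_floor_add_one (t + 1/2)
    linarith

theorem not_fpp (hn : 2 ≤ n) : ¬ FixedPointProperty (SymProd Fan n) := by
  intro h
  obtain ⟨s, hs⟩ := h (fun s => ray n (height s + 1))
    ((ray_cont hn).comp ((height_cont hn).add continuous_const))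
  have h1 := height_ray hn (height s + 1)
  have h2 : ray n (height s + 1) = s := hs
  rw [h2] at h1
  linarith

end Sym

/-- The fan has the fixed point property, and for every `n ≥ 2` its symmetric product `Fan(n)`
does not have the fixed point property. -/
theorem result : FixedPointProperty Fan ∧
    ∀ n : ℕ, 2 ≤ n → ¬ FixedPointProperty (SymProd Fan n) :=
  ⟨fan_fpp, fun _ hn => not_fpp hn⟩

end Pool.Agent.Results.MP_3eb21e_gt.PlaneFan
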